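import Pool.Agent.H.MP_84cfc0_co.Main

namespace Pool.Agent.Results.MP_84cfc0_co.Q2

theorem result (n m : ℕ) (hn : 1 ≤ n) (hm : m + 1 ≤ 2 * n) (R : Set (ℕ × ℕ))
    (hR : R = {p : ℕ × ℕ | p.1 < 2 * n ∧ p.2 < 2 * n ∧
      ¬ ∃ i : ℕ, i < m ∧ p.1 = i ∧ (p.2 = i ∨ p.2 = i + 1)}) (T : ℕ)
    (hT : T = Nat.card {f : R → R // ∀ x : R, f (f x) = x ∧
      ((x.1.1 = (f x).1.1 ∧ (x.1.2 + 1 = (f x).1.2 ∨ (f x).1.2 + 1 = x.1.2)) ∨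
       (x.1.2 = (f x).1.2 ∧ (x.1.1 + 1 = (f x).1.1 ∨ (f x).1.1 + 1 = x.1.1)))}) :
    (∃ k : ℕ, T = k ^ 2 ∨ T = 2 * k ^ 2) ∧
    (m ≤ n → ∃ k : ℕ, Odd k ∧ T = 2 ^ (n - m) * k ^ 2) ∧ (n < m → T = 0) := by
  have h := Pool.Agent.H.MP_84cfc0_co.main n m (by omega) R hR
  have h1 : m ≤ n → ∃ k : ℕ, Odd k ∧ T = 2 ^ (n - m) * k ^ 2 := fun h' => hT ▸ h.1 h'
  have h2 : n < m → T = 0 := fun h' => hT ▸ h.2 h'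
  refine ⟨?_, h1, h2⟩
  rcases le_or_gt m n with h' | h'
  · obtain ⟨k, _, hk⟩ := h1 h'
    obtain ⟨l, hl | hl⟩ := Nat.even_or_odd' (n - m)
    · exact ⟨2 ^ l * k, Or.inl (by rw [hk, hl]; ring)⟩
    · exact ⟨2 ^ l * k, Or.inr (by rw [hk, hl]; ring)⟩
  · exact ⟨0, Or.inl (h2 h')⟩

end Pool.Agent.Results.MP_84cfc0_co.Q2
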